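import Pool.Agent.K3h30.RS.Stm

/-!
# Rubin's conjecture: units of `ℚ[G]` and the change of `T` on the analytic side
-/

set_option autoImplicit false

open NumberField IsDedekindDomain Filter Topology

noncomputable section

namespace Pool.Agent.K3h62.RS

open Pool.Agent.K3h30.RS

/-- `1 - q g` is a unit of `ℚ[G]`. -/
theorem factor_unit {G : Type} [CommGroup G] [Finite G] (g : G) (q : ℕ) (hq : 2 ≤ q) :
    ∃ κ : MonoidAlgebra ℚ G, (1 - MonoidAlgebra.single g (q : ℚ)) * κ = 1 := by
  have hf : 0 < orderOf g := orderOf_pos g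
  have hs : (MonoidAlgebra.single g (q : ℚ)) ^ orderOf g =
      algebraMap ℚ (MonoidAlgebra ℚ G) ((q : ℚ) ^ orderOf g) := by
    rw [MonoidAlgebra.single_pow, pow_orderOf_eq_one]
    rfl
  have hne : (1 - (q : ℚ) ^ orderOf g) ≠ 0 := by
    have h1 : (1 : ℚ) < (q : ℚ) ^ orderOf g :=
      one_lt_pow₀ (by exact_mod_cast (by omega : 1 < q)) hf.ne'
    linarith
  refine ⟨(∑ j ∈ Finset.range (orderOf g), (MonoidAlgebra.single g (q : ℚ)) ^ j) *
    algebraMap ℚ (MonoidAlgebra ℚ G) ((1 - (q : ℚ) ^ orderOf g)⁻¹), ?_⟩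
  rw [← mul_assoc, mul_neg_geom_sum, hs, ← map_one (algebraMap ℚ (MonoidAlgebra ℚ G)), ← map_sub,
    ← map_mul, mul_inv_cancel₀ hne]

theorem two_le_absNorm {F : Type} [Field F] [NumberField F] (v : HeightOneSpectrum (𝓞 F)) :
    2 ≤ Ideal.absNorm v.asIdeal := by
  have h0 : Ideal.absNorm v.asIdeal ≠ 0 := by
    rw [Ne, Ideal.absNorm_eq_zero_iff]
    exact v.ne_bot
  have h1 : Ideal.absNorm v.asIdeal ≠ 1 := by
    rw [Ne, Ideal.absNorm_eq_one_iff]
    exact v.isPrime.ne_top
  omega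

theorem t_UNIT : S_UNIT := by
  intro F H G _ _ _ _ _ _ _ _ D T
  choose κ hκ using fun v : HeightOneSpectrum (𝓞 F) =>
    factor_unit (D.σ v)⁻¹ (Ideal.absNorm v.asIdeal) (two_le_absNorm v)
  refine ⟨∏ v ∈ T, κ v, ?_⟩
  unfold RubinData.delta
  rw [← Finset.prod_mul_distrib]
  exact Finset.prod_eq_one fun v _ => hκ v

section cv

variable {G : Type} [CommGroup G] [Finite G]

/-- The value of a character as an algebra homomorphism. -/
def cvHom (χ : G →* ℂˣ) : MonoidAlgebra ℝ G →ₐ[ℝ] ℂ :=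
  MonoidAlgebra.lift ℝ ℂ G ((Units.coeHom ℂ).comp χ)

omit [Finite G] in
theorem cvHom_single (χ : G →* ℂˣ) (g : G) (a : ℝ) :
    cvHom χ (MonoidAlgebra.single g a) = a * χ g := by
  unfold cvHom
  rw [MonoidAlgebra.lift_single]
  simp

omit [Finite G] in
theorem toR_single (g : G) (a : ℚ) :
    toR (MonoidAlgebra.single g a) = MonoidAlgebra.single g (a : ℝ) := by
  unfold toR
  simp

theorem charValue_eq (χ : G →* ℂˣ) (ρ : MonoidAlgebra ℝ G) : charValue χ ρ = cvHom χ ρ := by
  let _ := Fintype.ofFinite G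
  unfold charValue cvHom
  rw [MonoidAlgebra.lift_apply, Finsupp.sum_fintype]
  · refine Finset.sum_congr ?_ ?_
    · congr!
    · intro x _
      simp
  · intro i
    simp

theorem charValue_mul (χ : G →* ℂˣ) (a b : MonoidAlgebra ℝ G) :
    charValue χ (a * b) = charValue χ a * charValue χ b := by
  rw [charValue_eq, charValue_eq, charValue_eq, map_mul]

end cv

variable {F H G : Type} [Field F] [NumberField F] [Field H] [NumberField H] [Algebra F H]
  [CommGroup G] [Finite G] [MulSemiringAction G H]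

theorem charValue_delta (D : RubinData F H G) (χ : G →* ℂˣ)
    (T : Finset (HeightOneSpectrum (𝓞 F))) :
    charValue χ (toR (D.delta T)) =
      ∏ v ∈ T, (1 - ((χ⁻¹ (D.σ v) : ℂˣ) : ℂ) * (Ideal.absNorm v.asIdeal : ℂ) ^ (1 - (0 : ℂ))) := by
  rw [charValue_eq]
  unfold RubinData.delta
  rw [map_prod, map_prod]
  refine Finset.prod_congr rfl fun v _ => ?_
  rw [map_sub, map_sub, map_one, map_one, sub_zero, Complex.cpow_one]
  congr 1
  rw [toR_single, cvHom_single, MonoidHom.inv_apply, map_inv]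
  push_cast
  ring

theorem t_LFUN : S_LFUN := by
  intro F H G _ _ _ _ _ _ _ _ D T₁ T κ hκ U₁ U u₁ u hu h1 χ
  obtain ⟨κ', hκ'⟩ := t_UNIT F H G D T₁
  have e1 := charValue_delta D χ T₁
  have e2 := charValue_delta D χ T
  have hne : charValue χ (toR (D.delta T₁)) ≠ 0 := by
    intro h0
    have h2 : charValue χ (toR (D.delta T₁ * κ')) = 1 := by
      rw [hκ', map_one, charValue_eq, map_one]
    rw [map_mul, charValue_mul, h0, zero_mul] at h2
    exact zero_ne_one h2
  have hk : charValue χ (toR κ) =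
      charValue χ (toR (D.delta T)) / charValue χ (toR (D.delta T₁)) := by
    rw [eq_div_iff hne, ← hκ, map_mul, charValue_mul, mul_comm]
  have hcont : ∀ T' : Finset (HeightOneSpectrum (𝓞 F)), Tendsto
      (fun s : ℂ => ∏ v ∈ T', (1 - ((χ⁻¹ (D.σ v) : ℂˣ) : ℂ) *
        (Ideal.absNorm v.asIdeal : ℂ) ^ (1 - s))) (𝓝[≠] 0)
      (𝓝 (charValue χ (toR (D.delta T')))) := by
    intro T'
    rw [charValue_delta D χ T']
    refine (Continuous.tendsto ?_ 0).mono_left nhdsWithin_le_nhds
    refine continuous_finsetProd _ fun v _ => ?_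
    refine continuous_const.sub (continuous_const.mul ?_)
    refine Continuous.const_cpow (by fun_prop) (Or.inl ?_)
    have := two_le_absNorm v
    exact_mod_cast (by omega : Ideal.absNorm v.asIdeal ≠ 0)
  have h3 := (((hcont T).div (hcont T₁) hne).mul (h1 χ))
  rw [← hk, ← charValue_mul, ← hu] at h3
  refine h3.congr' ?_
  have h4 := (hcont T₁).eventually_ne hne
  filter_upwards [h4] with s hs
  unfold RubinData.LT
  simp only [Pi.div_apply]
  field_simp

end Pool.Agent.K3h62.RS
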